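import Pool.Agent.Helper69K9.SN.Stm

set_option autoImplicit false

/-! # [EN] the energy bound -/

namespace Pool.Agent.Helper69K9.SN

namespace EnL

open Complex in
/-- moving inside the disc -/
theorem shrink {z : ℂ} (hz : ‖z‖ ≤ 1) {r : ℝ} (hr0 : 0 ≤ r) (hr1 : r ≤ 1) :
    (1 + r) * ‖1 - z‖ ≤ 2 * ‖1 - r * z‖ := by
  have h1 : ‖1 - z‖ ^ 2 = 1 - 2 * z.re + ‖z‖ ^ 2 := by
    rw [Complex.sq_norm, Complex.sq_norm, Complex.normSq_apply, Complex.normSq_apply]
    simp only [Complex.sub_re, Complex.one_re, Complex.sub_im, Complex.one_im]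
    ring
  have h2 : ‖1 - r * z‖ ^ 2 = 1 - 2 * r * z.re + r ^ 2 * ‖z‖ ^ 2 := by
    rw [Complex.sq_norm, Complex.sq_norm, Complex.normSq_apply, Complex.normSq_apply]
    simp only [Complex.sub_re, Complex.one_re, Complex.sub_im, Complex.one_im, Complex.mul_re,
      Complex.mul_im, Complex.ofReal_re, Complex.ofReal_im]
    ring
  have hx : -‖z‖ ≤ z.re := (abs_le.1 (Complex.abs_re_le_norm z)).1
  have hn := norm_nonneg z
  have key : ((1 + r) * ‖1 - z‖) ^ 2 ≤ (2 * ‖1 - r * z‖) ^ 2 := by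
    rw [mul_pow, mul_pow, h1, h2]
    have e : 2 ^ 2 * (1 - 2 * r * z.re + r ^ 2 * ‖z‖ ^ 2) - (1 + r) ^ 2 * (1 - 2 * z.re + ‖z‖ ^ 2)
        = (1 - r) * ((3 + r) + 2 * z.re * (1 - r) - ‖z‖ ^ 2 * (1 + 3 * r)) := by ring
    have h3 : 0 ≤ (3 + r) + 2 * z.re * (1 - r) - ‖z‖ ^ 2 * (1 + 3 * r) := by
      have h4 : -(2 * ‖z‖) * (1 - r) ≤ 2 * z.re * (1 - r) :=
        mul_le_mul_of_nonneg_right (by linarith) (by linarith)
      have h5 : (3 + r) - 2 * ‖z‖ * (1 - r) - ‖z‖ ^ 2 * (1 + 3 * r)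
          = (1 - ‖z‖) * ((3 + r) + (1 + 3 * r) * ‖z‖) := by ring
      have h6 : 0 ≤ (1 - ‖z‖) * ((3 + r) + (1 + 3 * r) * ‖z‖) := by
        apply mul_nonneg (by linarith)
        positivity
      linarith
    have h7 : 0 ≤ (1 - r) * ((3 + r) + 2 * z.re * (1 - r) - ‖z‖ ^ 2 * (1 + 3 * r)) :=
      mul_nonneg (by linarith) h3
    linarith
  exact (pow_le_pow_iff_left₀ (by positivity) (by positivity) two_ne_zero).1 key

theorem log_series {z : ℂ} (hz : ‖z‖ < 1) :
    HasSum (fun n : ℕ => (z ^ n / n).re) (-Real.log ‖1 - z‖) := by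
  have h := Complex.hasSum_re (Complex.hasSum_taylorSeries_neg_log hz)
  rw [Complex.neg_re, Complex.log_re] at h
  exact h

theorem quarter {d : ℕ} (hd : 2 ≤ d) : (1 / 4 : ℝ) ≤ (1 - 1 / (d : ℝ)) ^ d := by
  have hd0 : (0 : ℝ) < d := by positivity
  have hd2 : (2 : ℝ) ≤ d := by exact_mod_cast hd
  have hr0 : 0 ≤ 1 - 1 / (d : ℝ) := by
    rw [sub_nonneg, div_le_one hd0]; linarith
  have h1 : 1 + ((d : ℝ) / 2) * (-(1 / (d : ℝ))) ≤ (1 + -(1 / (d : ℝ))) ^ ((d : ℝ) / 2) := by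
    apply one_add_mul_self_le_rpow_one_add
    · rw [neg_le_neg_iff, div_le_one hd0]; linarith
    · linarith
  have h2 : 1 + ((d : ℝ) / 2) * (-(1 / (d : ℝ))) = 1 / 2 := by
    field_simp
    norm_num
  rw [h2, ← sub_eq_add_neg] at h1
  have h3 : ((1 - 1 / (d : ℝ)) ^ ((d : ℝ) / 2)) ^ 2 = (1 - 1 / (d : ℝ)) ^ d := by
    rw [← Real.rpow_natCast, ← Real.rpow_mul hr0, ← Real.rpow_natCast]
    congr 1
    push_cast
    ring
  rw [← h3]
  nlinarith

end EnL

open EnL in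
theorem en : S_EN := by
  intro d w M hd hw hM hprod
  have hd0 : (0 : ℝ) < d := by positivity
  have hd2 : (2 : ℝ) ≤ d := by exact_mod_cast hd
  set r : ℝ := 1 - 1 / (d : ℝ) with hr
  have hr0 : 0 ≤ r := by
    rw [hr, sub_nonneg, div_le_one hd0]; linarith
  have hr1 : r < 1 := by
    rw [hr]
    have : 0 < 1 / (d : ℝ) := by positivity
    linarith
  have hconj : ∀ i, ‖(starRingEnd ℂ) (w i)‖ ≤ 1 := fun i => by
    rw [RCLike.norm_conj]; exact hw i
  have hz1 : ∀ i j, ‖w i * (starRingEnd ℂ) (w j)‖ ≤ 1 := fun i j => by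
    rw [norm_mul]
    exact mul_le_one₀ (hw i) (norm_nonneg _) (hconj j)
  have hzr : ∀ i j, ‖(r : ℂ) * (w i * (starRingEnd ℂ) (w j))‖ < 1 := fun i j => by
    rw [norm_mul, Complex.norm_real, Real.norm_eq_abs, abs_of_nonneg hr0]
    calc r * ‖w i * (starRingEnd ℂ) (w j)‖ ≤ r * 1 := mul_le_mul_of_nonneg_left (hz1 i j) hr0
      _ < 1 := by linarith
  -- the off diagonal factors are nonzero
  have hpos : 0 < ∏ i, ∏ j ∈ Finset.univ.erase i, ‖1 - w i * (starRingEnd ℂ) (w j)‖ := by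
    by_contra hcon
    push Not at hcon
    have h1 : 0 ≤ M ^ d := by positivity
    have := mul_nonpos_of_nonneg_of_nonpos h1 hcon
    linarith
  have hne : ∀ i, ∀ j ∈ Finset.univ.erase i, ‖1 - w i * (starRingEnd ℂ) (w j)‖ ≠ 0 := by
    intro i j hj h0
    apply hpos.ne'
    apply Finset.prod_eq_zero (Finset.mem_univ i)
    exact Finset.prod_eq_zero hj h0
  -- the series
  have hser : HasSum (fun n : ℕ => ∑ i, ∑ j,
      (((r : ℂ) * (w i * (starRingEnd ℂ) (w j))) ^ n / n).re)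
      (∑ i, ∑ j, -Real.log ‖1 - (r : ℂ) * (w i * (starRingEnd ℂ) (w j))‖) :=
    hasSum_sum fun i _ => hasSum_sum fun j _ => log_series (hzr i j)
  have hterm : ∀ n : ℕ, ∑ i, ∑ j, (((r : ℂ) * (w i * (starRingEnd ℂ) (w j))) ^ n / n).re
      = r ^ n * (‖∑ i, w i ^ n‖ ^ 2 / (n : ℝ)) := by
    intro n
    have e1 : ∑ i, ∑ j, (((r : ℂ) * (w i * (starRingEnd ℂ) (w j))) ^ n / n)
        = ((r ^ n * (‖∑ i, w i ^ n‖ ^ 2 / (n : ℝ)) : ℝ) : ℂ) := by
      have e2 : (((‖∑ i, w i ^ n‖ ^ 2 : ℝ)) : ℂ)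
          = (∑ i, w i ^ n) * (∑ j, ((starRingEnd ℂ) (w j)) ^ n) := by
        rw [Complex.sq_norm, ← Complex.mul_conj, map_sum]
        simp only [map_pow]
      push_cast
      push_cast at e2
      rw [e2, Finset.sum_mul_sum, Finset.sum_div, Finset.mul_sum]
      apply Finset.sum_congr rfl
      intro i _
      rw [Finset.sum_div, Finset.mul_sum]
      apply Finset.sum_congr rfl
      intro j _
      ring
    have e3 := congrArg Complex.re e1
    rw [Complex.ofReal_re, Complex.re_sum] at e3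
    rw [← e3]
    apply Finset.sum_congr rfl
    intro i _
    rw [Complex.re_sum]
  -- the upper bound of the total sum
  have hdiag : ∀ i, -Real.log ‖1 - (r : ℂ) * (w i * (starRingEnd ℂ) (w i))‖ ≤ Real.log d := by
    intro i
    have h1 : (1 / (d : ℝ)) ≤ ‖1 - (r : ℂ) * (w i * (starRingEnd ℂ) (w i))‖ := by
      have h2 := norm_sub_norm_le (1 : ℂ) ((r : ℂ) * (w i * (starRingEnd ℂ) (w i)))
      rw [norm_one, norm_mul, Complex.norm_real, Real.norm_eq_abs, abs_of_nonneg hr0] at h2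
      have h3 : r * ‖w i * (starRingEnd ℂ) (w i)‖ ≤ r * 1 :=
        mul_le_mul_of_nonneg_left (hz1 i i) hr0
      have h4 : 1 - r = 1 / (d : ℝ) := by rw [hr]; ring
      linarith
    have h5 := Real.log_le_log (by positivity) h1
    rw [one_div, Real.log_inv] at h5
    linarith
  have hshrink : Real.log (2 / (1 + r)) ≤ 1 / (d : ℝ) := by
    have h1 : (2 / (1 + r)) ≤ Real.exp (1 / (d : ℝ)) := by
      have h2 : (2 / (1 + r)) = 1 + 1 / (2 * (d : ℝ) - 1) := by
        rw [hr]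
        have h3 : (2 * (d : ℝ) - 1) ≠ 0 := by
          have : 0 < 2 * (d : ℝ) - 1 := by linarith
          exact this.ne'
        have h4 : (1 + (1 - 1 / (d : ℝ))) = (2 * (d : ℝ) - 1) / d := by
          field_simp
          ring
        rw [h4]
        field_simp
        ring
      rw [h2]
      have h5 : 1 / (2 * (d : ℝ) - 1) ≤ 1 / (d : ℝ) := by
        apply one_div_le_one_div_of_le hd0
        linarith
      have h6 := Real.add_one_le_exp (1 / (d : ℝ))
      linarith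
    have h7 := Real.log_le_log (by positivity) h1
    rwa [Real.log_exp] at h7
  have hoff : ∀ i, ∀ j ∈ Finset.univ.erase i,
      -Real.log ‖1 - (r : ℂ) * (w i * (starRingEnd ℂ) (w j))‖
        ≤ -Real.log ‖1 - w i * (starRingEnd ℂ) (w j)‖ + 1 / (d : ℝ) := by
    intro i j hj
    have h1 := shrink (hz1 i j) hr0 hr1.le
    have h0 : 0 < ‖1 - w i * (starRingEnd ℂ) (w j)‖ := lt_of_le_of_ne (norm_nonneg _) (hne i j hj).symm
    have h2 : ‖1 - w i * (starRingEnd ℂ) (w j)‖ / (2 / (1 + r))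
        ≤ ‖1 - (r : ℂ) * (w i * (starRingEnd ℂ) (w j))‖ := by
      rw [div_div_eq_mul_div, div_le_iff₀ (by norm_num)]
      linarith
    have h3 := Real.log_le_log (by positivity) h2
    rw [Real.log_div h0.ne' (by positivity)] at h3
    linarith
  have htot : ∑ i, ∑ j, -Real.log ‖1 - (r : ℂ) * (w i * (starRingEnd ℂ) (w j))‖
      ≤ d * Real.log d + (Real.log M + 1) * d := by
    have h1 : ∀ i, ∑ j, -Real.log ‖1 - (r : ℂ) * (w i * (starRingEnd ℂ) (w j))‖
        ≤ Real.log d + (∑ j ∈ Finset.univ.erase i, -Real.log ‖1 - w i * (starRingEnd ℂ) (w j)‖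
          + 1) := by
      intro i
      rw [← Finset.add_sum_erase _ _ (Finset.mem_univ i)]
      refine add_le_add (hdiag i) ?_
      refine le_trans (Finset.sum_le_sum (hoff i)) ?_
      rw [Finset.sum_add_distrib, Finset.sum_const, Finset.card_erase_of_mem (Finset.mem_univ i),
        Finset.card_univ, Fintype.card_fin, nsmul_eq_mul]
      have h2 : ((d - 1 : ℕ) : ℝ) * (1 / (d : ℝ)) ≤ 1 := by
        rw [mul_one_div, div_le_one hd0]
        exact_mod_cast Nat.sub_le d 1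
      linarith
    refine le_trans (Finset.sum_le_sum fun i _ => h1 i) ?_
    rw [Finset.sum_add_distrib, Finset.sum_add_distrib, Finset.sum_const, Finset.sum_const,
      Finset.card_univ, Fintype.card_fin, nsmul_eq_mul, nsmul_eq_mul]
    have h2 : ∑ i, ∑ j ∈ Finset.univ.erase i, -Real.log ‖1 - w i * (starRingEnd ℂ) (w j)‖
        = -Real.log (∏ i, ∏ j ∈ Finset.univ.erase i, ‖1 - w i * (starRingEnd ℂ) (w j)‖) := by
      rw [Real.log_prod (fun i _ => Finset.prod_ne_zero_iff.2 (hne i)), ← Finset.sum_neg_distrib]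
      apply Finset.sum_congr rfl
      intro i _
      rw [Real.log_prod (hne i), ← Finset.sum_neg_distrib]
    rw [h2]
    have h3 : 0 ≤ Real.log (M ^ d *
        ∏ i, ∏ j ∈ Finset.univ.erase i, ‖1 - w i * (starRingEnd ℂ) (w j)‖) :=
      Real.log_nonneg hprod
    rw [Real.log_mul (by positivity) hpos.ne', Real.log_pow] at h3
    nlinarith
  -- conclusion
  have hpart : ∑ k ∈ Finset.Icc 1 d, r ^ k * (‖∑ i, w i ^ k‖ ^ 2 / (k : ℝ))
      ≤ d * Real.log d + (Real.log M + 1) * d := by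
    refine le_trans ?_ htot
    have h1 : HasSum (fun n : ℕ => r ^ n * (‖∑ i, w i ^ n‖ ^ 2 / (n : ℝ)))
        (∑ i, ∑ j, -Real.log ‖1 - (r : ℂ) * (w i * (starRingEnd ℂ) (w j))‖) := by
      have e : (fun n : ℕ => r ^ n * (‖∑ i, w i ^ n‖ ^ 2 / (n : ℝ))) = fun n : ℕ => ∑ i, ∑ j,
          (((r : ℂ) * (w i * (starRingEnd ℂ) (w j))) ^ n / n).re := by
        funext n; exact (hterm n).symm
      rw [e]; exact hser
    exact sum_le_hasSum _ (fun n _ => by positivity) h1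
  have hlow : ∀ k ∈ Finset.Icc 1 d, (1 / 4 : ℝ) * (‖∑ i, w i ^ k‖ ^ 2 / (k : ℝ))
      ≤ r ^ k * (‖∑ i, w i ^ k‖ ^ 2 / (k : ℝ)) := by
    intro k hk
    rw [Finset.mem_Icc] at hk
    apply mul_le_mul_of_nonneg_right _ (by positivity)
    exact (quarter hd).trans (pow_le_pow_of_le_one hr0 hr1.le hk.2)
  have h1 := Finset.sum_le_sum hlow
  rw [← Finset.mul_sum] at h1
  linarith

end Pool.Agent.Helper69K9.SN
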