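import Mathlib
import Pool.Agent.R329.Par.Pow

/-!
# Counting Perron numbers with infinitely many Parry powers: statements of the steps
-/

set_option autoImplicit false

open Polynomial

namespace Pool.Agent.Helper69K9.SN

open Pool.Agent.R329.Par

/-- the energy bound: points of the closed unit disc whose hyperbolic energy is not too small have
small power sums -/
def S_EN : Prop :=
  ∀ (d : ℕ) (w : Fin d → ℂ) (M : ℝ), 2 ≤ d → (∀ i, ‖w i‖ ≤ 1) → 1 ≤ M →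
    1 ≤ M ^ d * ∏ i, ∏ j ∈ Finset.univ.erase i, ‖1 - w i * (starRingEnd ℂ) (w j)‖ →
    ∑ k ∈ Finset.Icc 1 d, ‖∑ i, w i ^ k‖ ^ 2 / (k : ℝ) ≤
      4 * (d * Real.log d + (Real.log M + 1) * d)

/-- the number of integer vectors with `∑ (i + 1) m_i ^ 2 ≤ R` -/
def S_CNT : Prop :=
  ∀ (n : ℕ) (R : ℝ) (F : Finset (Fin n → ℤ)),
    (∀ m ∈ F, ∑ i : Fin n, ((i : ℕ) + 1 : ℝ) * (m i : ℝ) ^ 2 ≤ R) →
    (F.card : ℝ) ≤ Real.exp (4 * Real.sqrt R)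

/-- prefix coding -/
def S_PC : Prop :=
  ∀ (n : ℕ) (ι : Type) [Fintype ι] (e : ι → Fin n → ℤ) (A : ι → Fin n → ℝ) (R : ℝ),
    Function.Injective e → (∀ y k, 0 ≤ A y k) →
    (∀ y y' k, (∀ j, j < k → e y j = e y' j) → |(e y k : ℝ) - e y' k| ≤ A y k + A y' k) →
    (∀ y, ∑ k : Fin n, ((k : ℕ) + 1 : ℝ) * A y k ^ 2 ≤ R) →
    (Fintype.card ι : ℝ) ≤ Real.exp (8 * Real.sqrt R)

/-- Newton's identities for two monic polynomials with the same leading coefficients -/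
def S_NEWT : Prop :=
  ∀ (d : ℕ) (x y : Fin d → ℂ) (k : ℕ), 1 ≤ k → k ≤ d →
    (∀ j, 1 ≤ j → j < k →
      (∏ i, (X - C (x i))).coeff (d - j) = (∏ i, (X - C (y i))).coeff (d - j)) →
    (∀ j, 1 ≤ j → j < k → ∑ i, x i ^ j = ∑ i, y i ^ j) ∧
    ‖∑ i, x i ^ k - ∑ i, y i ^ k‖ =
      k * ‖(∏ i, (X - C (x i))).coeff (d - k) - (∏ i, (X - C (y i))).coeff (d - k)‖

/-- the recurrence for the difference of two sequences `β ^ k - β ^ (-k)` -/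
def S_REC : Prop :=
  ∀ (T b c : ℝ), 1 < b → b < T → 1 < c → c < T → ∀ (D : ℕ → ℝ),
    (∀ k, D k = (b ^ k - (b⁻¹) ^ k) - (c ^ k - (c⁻¹) ^ k)) →
    ∀ k, 4 ≤ k → |D k| ≤ (T + 1) ^ 2 * (|D (k - 1)| + |D (k - 2)| + |D (k - 3)| + |D (k - 4)|) + 2 *
      |D (k - 2)|

/-- the conjugates of a Perron number with infinitely many Parry powers -/
def S_PA : Prop :=
  ∀ (β : ℝ), IsPerron β → ¬ (parryPowers β).Finite →
    ∃ (a : Fin (minpoly ℤ β).natDegree → ℂ) (i0 : Fin (minpoly ℤ β).natDegree),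
      (minpoly ℤ β).map (Int.castRingHom ℂ) = ∏ i, (X - C (a i)) ∧ a i0 = (β : ℂ) ∧
      (∀ i, i ≠ i0 → ‖a i‖ ≤ 1) ∧
      1 ≤ ∏ i, ∏ j ∈ Finset.univ.erase i, ‖a i - a j‖

/-- replacing the zero outside the disc by its inverse -/
def S_REFL : Prop :=
  ∀ (d : ℕ) (a w : Fin d → ℂ) (i0 : Fin d) (β : ℝ), 1 < β → a i0 = (β : ℂ) →
    (∀ i, i ≠ i0 → ‖a i‖ ≤ 1) → w i0 = ((β⁻¹ : ℝ) : ℂ) → (∀ i, i ≠ i0 → w i = a i) →
    ∏ i, ∏ j ∈ Finset.univ.erase i, ‖a i - a j‖ ≤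
      (β ^ 2) ^ d * ∏ i, ∏ j ∈ Finset.univ.erase i, ‖1 - w i * (starRingEnd ℂ) (w j)‖

/-- the theorem -/
def S_MAIN : Prop :=
  ∀ T : ℝ, 1 < T → ∃ K : ℝ, ∀ d : ℕ, 2 ≤ d →
    {β : ℝ | IsPerron β ∧ β < T ∧ (minpoly ℤ β).natDegree = d ∧ ¬ (parryPowers β).Finite}.Finite ∧
    ({β : ℝ | IsPerron β ∧ β < T ∧ (minpoly ℤ β).natDegree = d ∧
      ¬ (parryPowers β).Finite}.ncard : ℝ) ≤ Real.exp (K * Real.sqrt (d * Real.log d))

end Pool.Agent.Helper69K9.SN
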