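import Mathlib
import Pool.Agent.Helper69K9.SN.Stm
import Pool.Agent.Helper34K9.PP.App

/-!
# The recurrence, the reflection of the large zero, and the conjugates
-/

set_option autoImplicit false

open Polynomial

namespace Pool.Agent.Helper69K9.SN

open Pool.Agent.R329.Par

theorem recd : S_REC := by
  intro T b c hb hbT hc hcT D hD k hk
  obtain ⟨m, rfl⟩ : ∃ m, k = m + 4 := ⟨k - 4, by omega⟩
  have hb0 : b ≠ 0 := by positivity
  have hc0 : c ≠ 0 := by positivity
  set t : ℝ := b + b⁻¹ with ht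
  set u : ℝ := c + c⁻¹ with hu
  have hrec : D (m + 4) = (t + u) * D (m + 3) - (2 + t * u) * D (m + 2) + (t + u) * D (m + 1) -
      D m := by
    rw [hD, hD, hD, hD, hD, ht, hu]
    have hbb : b * b⁻¹ = 1 := mul_inv_cancel₀ hb0
    have hcc : c * c⁻¹ = 1 := mul_inv_cancel₀ hc0
    set x := b⁻¹
    set y := c⁻¹
    have e1 : ∀ k : ℕ, b ^ (k + 1) * x = b ^ k := fun k => by rw [pow_succ, mul_assoc, hbb, mul_one]
    have e2 : ∀ k : ℕ, x ^ (k + 1) * b = x ^ k := fun k => by
      rw [pow_succ, mul_assoc, mul_comm x b, hbb, mul_one]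
    have e3 : ∀ k : ℕ, c ^ (k + 1) * y = c ^ k := fun k => by rw [pow_succ, mul_assoc, hcc, mul_one]
    have e4 : ∀ k : ℕ, y ^ (k + 1) * c = y ^ k := fun k => by
      rw [pow_succ, mul_assoc, mul_comm y c, hcc, mul_one]
    have hquad : ∀ (p q : ℝ), p * q = 1 → ∀ k : ℕ,
        p ^ (k + 2) = (p + q) * p ^ (k + 1) - p ^ k := by
      intro p q hpq k
      have : q * p ^ (k + 1) = p ^ k := by
        rw [pow_succ, mul_comm (p ^ k) p, ← mul_assoc, mul_comm q p, hpq, one_mul]
      rw [add_mul, this]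
      ring
    have hb2 := hquad b x hbb
    have hx2 := hquad x b (by rw [mul_comm]; exact hbb)
    have hc2 := hquad c y hcc
    have hy2 := hquad y c (by rw [mul_comm]; exact hcc)
    have f1 := hb2 (m + 2)
    have f2 := hb2 (m + 1)
    have f3 := hb2 m
    have g1 := hx2 (m + 2)
    have g2 := hx2 (m + 1)
    have g3 := hx2 m
    have h1 := hc2 (m + 2)
    have h2 := hc2 (m + 1)
    have h3 := hc2 m
    have i1 := hy2 (m + 2)
    have i2 := hy2 (m + 1)
    have i3 := hy2 m
    simp only [add_assoc, Nat.reduceAdd] at f1 f2 f3 g1 g2 g3 h1 h2 h3 i1 i2 i3 ⊢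
    rw [f1, f2, f3, g1, g2, g3, h1, h2, h3, i1, i2, i3]
    ring
  have hbi : b⁻¹ < 1 := inv_lt_one_of_one_lt₀ hb
  have hbi0 : 0 < b⁻¹ := by positivity
  have hci : c⁻¹ < 1 := inv_lt_one_of_one_lt₀ hc
  have hci0 : 0 < c⁻¹ := by positivity
  have ht0 : 0 < t := by positivity
  have hu0 : 0 < u := by positivity
  have htT : t < T + 1 := by rw [ht]; linarith
  have huT : u < T + 1 := by rw [hu]; linarith
  have htu : t * u ≤ (T + 1) ^ 2 := by
    rw [sq]
    exact mul_le_mul htT.le huT.le hu0.le (by linarith)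
  have htu2 : t + u ≤ (T + 1) ^ 2 := by nlinarith
  have h1T : 1 ≤ (T + 1) ^ 2 := by nlinarith
  simp only [Nat.add_sub_cancel, show m + 4 - 1 = m + 3 by omega, show m + 4 - 2 = m + 2 by omega,
    show m + 4 - 3 = m + 1 by omega]
  rw [hrec]
  have a1 : |(t + u) * D (m + 3)| ≤ (T + 1) ^ 2 * |D (m + 3)| := by
    rw [abs_mul, abs_of_pos (by positivity)]
    exact mul_le_mul_of_nonneg_right htu2 (abs_nonneg _)
  have a2 : |(2 + t * u) * D (m + 2)| ≤ (2 + (T + 1) ^ 2) * |D (m + 2)| := by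
    rw [abs_mul, abs_of_pos (by positivity)]
    exact mul_le_mul_of_nonneg_right (by linarith) (abs_nonneg _)
  have a3 : |(t + u) * D (m + 1)| ≤ (T + 1) ^ 2 * |D (m + 1)| := by
    rw [abs_mul, abs_of_pos (by positivity)]
    exact mul_le_mul_of_nonneg_right htu2 (abs_nonneg _)
  have a4 : |D m| ≤ (T + 1) ^ 2 * |D m| := by
    nlinarith [abs_nonneg (D m)]
  have b1 := abs_le.1 a1
  have b2 := abs_le.1 a2
  have b3 := abs_le.1 a3
  have b4 := abs_le.1 a4
  rw [abs_le]
  constructor <;> nlinarith [b1.1, b1.2, b2.1, b2.2, b3.1, b3.2, b4.1, b4.2]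

/-- two points of the closed unit disc -/
lemma sub_le_one_sub {z w : ℂ} (hz : ‖z‖ ≤ 1) (hw : ‖w‖ ≤ 1) :
    ‖z - w‖ ≤ ‖1 - z * (starRingEnd ℂ) w‖ := by
  have h1 : ‖z - w‖ ^ 2 ≤ ‖1 - z * (starRingEnd ℂ) w‖ ^ 2 := by
    rw [← Complex.normSq_eq_norm_sq, ← Complex.normSq_eq_norm_sq, Complex.normSq_sub,
      Complex.normSq_sub]
    simp only [map_one, one_mul, map_mul, Complex.conj_conj, Complex.normSq_conj]
    have h2 : ((starRingEnd ℂ) z * w).re = (z * (starRingEnd ℂ) w).re := by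
      simp [Complex.mul_re]
    rw [h2]
    have h3 : Complex.normSq z ≤ 1 := by
      rw [Complex.normSq_eq_norm_sq]; nlinarith [norm_nonneg z]
    have h4 : Complex.normSq w ≤ 1 := by
      rw [Complex.normSq_eq_norm_sq]; nlinarith [norm_nonneg w]
    nlinarith [mul_nonneg (sub_nonneg.2 h3) (sub_nonneg.2 h4)]
  exact (sq_le_sq₀ (norm_nonneg _) (norm_nonneg _)).1 h1

theorem refl' : S_REFL := by
  classical
  intro d a w i0 β hβ ha0 ha hw0 hw
  have hβ0 : 0 < β := by linarith
  -- factorwise bound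
  set c : Fin d → Fin d → ℝ := fun i j => if i = i0 ∨ j = i0 then β else 1 with hc
  have hfac : ∀ i j, i ≠ j → ‖a i - a j‖ ≤ c i j * ‖1 - w i * (starRingEnd ℂ) (w j)‖ := by
    intro i j hij
    by_cases hi : i = i0
    · subst hi
      have hj : j ≠ i := fun h => hij h.symm
      rw [hc]
      simp only [true_or, if_true]
      rw [ha0, hw0, hw j hj]
      have h1 : ‖(1 : ℂ) - ((β⁻¹ : ℝ) : ℂ) * (starRingEnd ℂ) (a j)‖ =
          ‖(1 : ℂ) - ((β⁻¹ : ℝ) : ℂ) * a j‖ := by
        rw [← Complex.norm_conj]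
        simp
      rw [h1]
      have hβc : (β : ℂ) ≠ 0 := by exact_mod_cast hβ0.ne'
      have h2 : (β : ℂ) - a j = (β : ℂ) * (1 - ((β⁻¹ : ℝ) : ℂ) * a j) := by
        push_cast
        rw [mul_sub, mul_one, ← mul_assoc, mul_inv_cancel₀ hβc, one_mul]
      rw [h2, norm_mul, Complex.norm_real, Real.norm_of_nonneg hβ0.le]
    · by_cases hj : j = i0
      · subst hj
        rw [hc]
        simp only [or_true, if_true]
        rw [ha0, hw0, hw i hi]
        have hβc : (β : ℂ) ≠ 0 := by exact_mod_cast hβ0.ne'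
        have h2 : a i - (β : ℂ) = (-(β : ℂ)) * (1 - a i * (starRingEnd ℂ) ((β⁻¹ : ℝ) : ℂ)) := by
          rw [Complex.conj_ofReal]
          push_cast
          have h3 : (β : ℂ) * (a i * (β : ℂ)⁻¹) = a i := by
            rw [mul_comm (a i), ← mul_assoc, mul_inv_cancel₀ hβc, one_mul]
          linear_combination -h3
        rw [h2, norm_mul, norm_neg, Complex.norm_real, Real.norm_of_nonneg hβ0.le]
      · rw [hc]
        simp only [hi, hj, or_self, if_false, one_mul]
        rw [hw i hi, hw j hj]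
        exact sub_le_one_sub (ha i hi) (ha j hj)
  have h1 : ∏ i, ∏ j ∈ Finset.univ.erase i, ‖a i - a j‖ ≤
      ∏ i, ∏ j ∈ Finset.univ.erase i, (c i j * ‖1 - w i * (starRingEnd ℂ) (w j)‖) := by
    refine Finset.prod_le_prod (fun i _ => Finset.prod_nonneg fun j _ => norm_nonneg _)
      fun i _ => ?_
    refine Finset.prod_le_prod (fun j _ => norm_nonneg _) fun j hj => ?_
    exact hfac i j (Finset.ne_of_mem_erase hj).symm
  refine h1.trans ?_
  simp_rw [Finset.prod_mul_distrib]
  refine mul_le_mul_of_nonneg_right ?_ (Finset.prod_nonneg fun i _ =>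
    Finset.prod_nonneg fun j _ => norm_nonneg _)
  -- the product of the constants
  have h2 : ∀ i, i ≠ i0 → ∏ j ∈ Finset.univ.erase i, c i j = β := by
    intro i hi
    rw [Finset.prod_eq_single i0]
    · simp [hc]
    · intro j _ hj
      simp [hc, hi, hj]
    · intro h
      exact absurd (Finset.mem_erase.2 ⟨fun h => hi h.symm, Finset.mem_univ _⟩) h
  have h3 : ∏ j ∈ Finset.univ.erase i0, c i0 j = β ^ (d - 1) := by
    rw [Finset.prod_congr rfl (fun j _ => show c i0 j = β by simp [hc])]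
    rw [Finset.prod_const, Finset.card_erase_of_mem (Finset.mem_univ _), Finset.card_univ,
      Fintype.card_fin]
  rw [← Finset.mul_prod_erase Finset.univ _ (Finset.mem_univ i0), h3,
    Finset.prod_congr rfl (fun i hi => h2 i (Finset.ne_of_mem_erase hi)), Finset.prod_const,
    Finset.card_erase_of_mem (Finset.mem_univ _), Finset.card_univ, Fintype.card_fin, ← pow_add,
    ← pow_mul]
  exact pow_le_pow_right₀ hβ.le (by omega)

theorem pa : S_PA := by
  classical
  intro β h hinf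
  obtain ⟨hβ, hint, hperron⟩ := h
  obtain ⟨a, ha⟩ := Pool.Agent.Helper34K9.PP.exists_roots _ (minpoly.monic hint)
  have hroot : ∀ z : ℂ, aeval z (minpoly ℤ β) = 0 ↔ ∃ i, a i = z := by
    intro z
    have h1 : aeval z (minpoly ℤ β) = ((minpoly ℤ β).map (Int.castRingHom ℂ)).eval z := by
      rw [eval_map, aeval_def]
      rfl
    rw [h1, ha, eval_prod, Finset.prod_eq_zero_iff]
    simp [sub_eq_zero, eq_comm]
  obtain ⟨i0, hi0⟩ := (hroot (β : ℂ)).1 (by
    have : aeval ((algebraMap ℝ ℂ) β) (minpoly ℤ β) = 0 := by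
      rw [aeval_algebraMap_apply, minpoly.aeval, map_zero]
    exact this)
  have hdeg : 0 < (minpoly ℤ β).natDegree := (Fin.pos i0)
  have hirr : Irreducible (minpoly ℤ β) := minpoly.irreducible hint
  have hsep : ((minpoly ℤ β).map (Int.castRingHom ℂ)).Separable := by
    have hp : (minpoly ℤ β).IsPrimitive := (minpoly.monic hint).isPrimitive
    have h1 : Irreducible ((minpoly ℤ β).map (Int.castRingHom ℚ)) :=
      (Polynomial.IsPrimitive.Int.irreducible_iff_irreducible_map_cast hp).1 hirr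
    have h2 := h1.separable.map (f := algebraMap ℚ ℂ)
    rw [Polynomial.map_map] at h2
    have h3 : (algebraMap ℚ ℂ).comp (Int.castRingHom ℚ) = Int.castRingHom ℂ := RingHom.ext_int _ _
    rwa [h3] at h2
  have hinj : Function.Injective a := by
    rw [ha] at hsep
    exact Polynomial.separable_prod_X_sub_C_iff.1 hsep
  have hdisc := Pool.Agent.Helper34K9.PP.vdm_discr (minpoly ℤ β) (minpoly.monic hint) hdeg a ha
  have hvd : ∏ i, ∏ j ∈ Finset.univ.erase i, ‖a i - a j‖ = |((minpoly ℤ β).discr : ℝ)| := by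
    rw [← hdisc, Matrix.det_vandermonde, norm_prod, ← Finset.prod_pow]
    have h5 : ∏ i, ∏ j ∈ ({i} : Finset (Fin (minpoly ℤ β).natDegree))ᶜ, ‖a i - a j‖
        = ∏ i, ‖∏ j ∈ Finset.Ioi i, (a j - a i)‖ ^ 2 := by
      rw [← Finset.prod_prod_Ioi_mul_eq_prod_prod_off_diag (fun j i => ‖a i - a j‖)]
      refine Finset.prod_congr rfl fun i _ => ?_
      rw [norm_prod, ← Finset.prod_pow]
      refine Finset.prod_congr rfl fun j _ => ?_
      rw [sq, norm_sub_rev (a i) (a j)]
    rw [← h5]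
    refine Finset.prod_congr rfl fun i _ => ?_
    rw [Finset.compl_singleton]
  refine ⟨a, i0, ha, hi0, ?_, ?_⟩
  · intro i hi
    refine Pool.Agent.H196R3.Parry.conj_le_one hβ hint hperron hinf ((hroot (a i)).2 ⟨i, rfl⟩) ?_
    rw [← hi0]
    exact fun h => hi (hinj h)
  · rw [hvd]
    have h6 : (minpoly ℤ β).discr ≠ 0 := by
      intro h0
      rw [h0] at hvd
      simp only [Int.cast_zero, abs_zero] at hvd
      rw [Finset.prod_eq_zero_iff] at hvd
      obtain ⟨i, _, hi⟩ := hvd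
      rw [Finset.prod_eq_zero_iff] at hi
      obtain ⟨j, hj, hij⟩ := hi
      rw [norm_eq_zero, sub_eq_zero] at hij
      exact Finset.ne_of_mem_erase hj (hinj hij).symm
    have h7 : (1 : ℤ) ≤ |(minpoly ℤ β).discr| := Int.one_le_abs h6
    exact_mod_cast h7

end Pool.Agent.Helper69K9.SN
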