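import Mathlib
import Pool.Agent.Helper69K9.SN.Small

/-!
# Assembly: counting Perron numbers with infinitely many Parry powers
-/

set_option autoImplicit false

open Polynomial

namespace Pool.Agent.Helper69K9.SN

open Pool.Agent.R329.Par

/-- the data attached to one number -/
structure Dat (T : ℝ) (d : ℕ) (β : ℝ) where
  /-- the conjugates -/
  a : Fin d → ℂ
  /-- the reflected conjugates -/
  w : Fin d → ℂ
  pol : (minpoly ℤ β).map (Int.castRingHom ℂ) = ∏ i, (X - C (a i))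
  one_lt : 1 < β
  lt : β < T
  deg : (minpoly ℤ β).natDegree = d
  psum : ∀ k : ℕ, ∑ i, a i ^ k = ∑ i, w i ^ k + ((β ^ k - (β⁻¹) ^ k : ℝ) : ℂ)
  en : ∑ k ∈ Finset.Icc 1 d, ‖∑ i, w i ^ k‖ ^ 2 / (k : ℝ) ≤
      4 * (d * Real.log d + (Real.log (T ^ 2) + 1) * d)
  bd : ∀ i, ‖a i‖ ≤ T

theorem exists_dat (EN : S_EN) {T : ℝ} (hT : 1 < T) {d : ℕ} (hd : 2 ≤ d) {β : ℝ}
    (h : IsPerron β) (hβT : β < T) (hdeg : (minpoly ℤ β).natDegree = d)
    (hinf : ¬ (parryPowers β).Finite) : Nonempty (Dat T d β) := by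
  classical
  subst hdeg
  obtain ⟨a, i0, ha, hi0, hle, hdisc⟩ := pa β h hinf
  have hβ : 1 < β := h.1
  set w : Fin (minpoly ℤ β).natDegree → ℂ := fun i => if i = i0 then ((β⁻¹ : ℝ) : ℂ) else a i with hw
  have hw0 : w i0 = ((β⁻¹ : ℝ) : ℂ) := by simp [hw]
  have hwi : ∀ i, i ≠ i0 → w i = a i := fun i hi => by simp [hw, hi]
  have hrefl := refl' _ a w i0 β hβ hi0 hle hw0 hwi
  have hw1 : ∀ i, ‖w i‖ ≤ 1 := by
    intro i
    by_cases hi : i = i0
    · subst hi
      rw [hw0, Complex.norm_real, Real.norm_of_nonneg (by positivity)]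
      exact (inv_lt_one_of_one_lt₀ hβ).le
    · rw [hwi i hi]
      exact hle i hi
  refine ⟨⟨a, w, ha, hβ, hβT, rfl, ?_, ?_, ?_⟩⟩
  · intro k
    rw [← Finset.add_sum_erase Finset.univ _ (Finset.mem_univ i0),
      ← Finset.add_sum_erase Finset.univ (fun i => w i ^ k) (Finset.mem_univ i0)]
    have : ∑ i ∈ Finset.univ.erase i0, a i ^ k = ∑ i ∈ Finset.univ.erase i0, w i ^ k :=
      Finset.sum_congr rfl fun i hi => by rw [hwi i (Finset.ne_of_mem_erase hi)]
    rw [this, hi0, hw0]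
    push_cast
    ring
  · refine EN _ w (T ^ 2) hd hw1 (by nlinarith) ?_
    refine hdisc.trans (hrefl.trans ?_)
    refine mul_le_mul_of_nonneg_right ?_ (Finset.prod_nonneg fun i _ =>
      Finset.prod_nonneg fun j _ => norm_nonneg _)
    exact pow_le_pow_left₀ (by positivity) (pow_le_pow_left₀ (by linarith) hβT.le 2) _
  · intro i
    by_cases hi : i = i0
    · subst hi
      rw [hi0, Complex.norm_real, Real.norm_of_nonneg (by linarith)]
      exact hβT.le
    · exact (hle i hi).trans hT.le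

/-- the integer sequence of one number -/
noncomputable def seq (d : ℕ) (β : ℝ) (k : Fin d) : ℤ := (minpoly ℤ β).coeff (d - ((k : ℕ) + 1))

/-- the modulus of the reflected power sum, `0` for `k = 0` -/
noncomputable def vv {T : ℝ} {d : ℕ} {β : ℝ} (D : Dat T d β) (k : ℕ) : ℝ :=
  if k = 0 then 0 else ‖∑ i, D.w i ^ k‖

lemma vv_nonneg {T : ℝ} {d : ℕ} {β : ℝ} (D : Dat T d β) (k : ℕ) : 0 ≤ vv D k := by
  unfold vv
  split_ifs
  · exact le_rfl
  · exact norm_nonneg _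

/-- the weights -/
noncomputable def aa {T : ℝ} {d : ℕ} {β : ℝ} (D : Dat T d β) (k : Fin d) : ℝ :=
  if (k : ℕ) < 3 then 0 else
    ((T + 1) ^ 2 + 2) * (∑ j ∈ Finset.range 5, vv D ((k : ℕ) + 1 - j)) / ((k : ℕ) + 1 : ℝ)

lemma aa_nonneg {T : ℝ} {d : ℕ} {β : ℝ} (D : Dat T d β) (k : Fin d) : 0 ≤ aa D k := by
  unfold aa
  split_ifs
  · exact le_rfl
  · have := Finset.sum_nonneg fun j (_ : j ∈ Finset.range 5) => vv_nonneg D ((k : ℕ) + 1 - j)
    positivity

lemma sum_aa {T : ℝ} {d : ℕ} {β : ℝ} (D : Dat T d β) :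
    ∑ k : Fin d, ((k : ℕ) + 1 : ℝ) * aa D k ^ 2 ≤
      25 * ((T + 1) ^ 2 + 2) ^ 2 * (4 * (d * Real.log d + (Real.log (T ^ 2) + 1) * d)) := by
  set c : ℝ := (T + 1) ^ 2 + 2 with hc
  set f : ℕ → ℝ := fun l => vv D l ^ 2 / (l : ℝ) with hf
  have hf0 : ∀ l, 0 ≤ f l := fun l => by positivity
  have hE : ∑ l ∈ Finset.range (d + 1), f l ≤
      4 * (d * Real.log d + (Real.log (T ^ 2) + 1) * d) := by
    have h1 : ∑ l ∈ Finset.range (d + 1), f l = ∑ l ∈ Finset.Icc 1 d, f l := by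
      symm
      apply Finset.sum_subset
      · intro l hl
        rw [Finset.mem_Icc] at hl
        rw [Finset.mem_range]
        omega
      · intro l hl hl2
        rw [Finset.mem_range] at hl
        rw [Finset.mem_Icc] at hl2
        have : l = 0 := by omega
        rw [hf]
        simp [this]
    rw [h1]
    refine le_trans (le_of_eq ?_) D.en
    refine Finset.sum_congr rfl fun l hl => ?_
    rw [Finset.mem_Icc] at hl
    rw [hf]
    simp only [vv, show l ≠ 0 by omega, if_false]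
  have hterm : ∀ k : Fin d, ((k : ℕ) + 1 : ℝ) * aa D k ^ 2 ≤
      5 * c ^ 2 * ∑ j ∈ Finset.range 5, f ((k : ℕ) + 1 - j) := by
    intro k
    have hs0 : 0 ≤ ∑ j ∈ Finset.range 5, f ((k : ℕ) + 1 - j) :=
      Finset.sum_nonneg fun j _ => hf0 _
    unfold aa
    split_ifs with hk
    · simp only [ne_eq, OfNat.ofNat_ne_zero, not_false_eq_true, zero_pow, mul_zero]
      positivity
    · have hk0 : (0 : ℝ) < ((k : ℕ) + 1 : ℝ) := by positivity
      have h1 : (∑ j ∈ Finset.range 5, vv D ((k : ℕ) + 1 - j)) ^ 2 ≤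
          5 * ∑ j ∈ Finset.range 5, vv D ((k : ℕ) + 1 - j) ^ 2 := by
        have := sq_sum_le_card_mul_sum_sq (s := Finset.range 5)
          (f := fun j => vv D ((k : ℕ) + 1 - j))
        simpa using this
      have h2 : ∀ j ∈ Finset.range 5, vv D ((k : ℕ) + 1 - j) ^ 2 / ((k : ℕ) + 1 : ℝ) ≤
          f ((k : ℕ) + 1 - j) := by
        intro j _
        rw [hf]
        simp only
        by_cases h0 : (k : ℕ) + 1 - j = 0
        · rw [h0]
          simp [vv]
        · refine div_le_div_of_nonneg_left (sq_nonneg _) ?_ ?_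
          · exact_mod_cast Nat.pos_of_ne_zero h0
          · have : ((k : ℕ) + 1 - j : ℕ) ≤ (k : ℕ) + 1 := Nat.sub_le _ _
            exact_mod_cast this
      have h3 : ((k : ℕ) + 1 : ℝ) * (c * (∑ j ∈ Finset.range 5, vv D ((k : ℕ) + 1 - j)) /
          ((k : ℕ) + 1 : ℝ)) ^ 2 = c ^ 2 * ((∑ j ∈ Finset.range 5, vv D ((k : ℕ) + 1 - j)) ^ 2 /
            ((k : ℕ) + 1 : ℝ)) := by
        field_simp
      rw [h3]
      have h4 : (∑ j ∈ Finset.range 5, vv D ((k : ℕ) + 1 - j)) ^ 2 / ((k : ℕ) + 1 : ℝ) ≤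
          5 * ∑ j ∈ Finset.range 5, f ((k : ℕ) + 1 - j) := by
        calc (∑ j ∈ Finset.range 5, vv D ((k : ℕ) + 1 - j)) ^ 2 / ((k : ℕ) + 1 : ℝ)
            ≤ (5 * ∑ j ∈ Finset.range 5, vv D ((k : ℕ) + 1 - j) ^ 2) / ((k : ℕ) + 1 : ℝ) :=
              div_le_div_of_nonneg_right h1 hk0.le
          _ = 5 * ∑ j ∈ Finset.range 5, vv D ((k : ℕ) + 1 - j) ^ 2 / ((k : ℕ) + 1 : ℝ) := by
              rw [mul_div_assoc, Finset.sum_div]
          _ ≤ _ := mul_le_mul_of_nonneg_left (Finset.sum_le_sum h2) (by norm_num)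
      calc c ^ 2 * ((∑ j ∈ Finset.range 5, vv D ((k : ℕ) + 1 - j)) ^ 2 / ((k : ℕ) + 1 : ℝ))
          ≤ c ^ 2 * (5 * ∑ j ∈ Finset.range 5, f ((k : ℕ) + 1 - j)) :=
            mul_le_mul_of_nonneg_left h4 (sq_nonneg _)
        _ = _ := by ring
  have hj : ∀ j ∈ Finset.range 5, ∑ k : Fin d, f ((k : ℕ) + 1 - j) ≤
      ∑ l ∈ Finset.range (d + 1), f l := by
    intro j _
    have h1 : ∑ k : Fin d, f ((k : ℕ) + 1 - j) = ∑ k ∈ Finset.range d, f (k + 1 - j) :=
      (Finset.sum_range fun k => f (k + 1 - j)).symm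
    rw [h1]
    -- the terms with `k + 1 ≤ j` vanish
    have h2 : ∑ k ∈ Finset.range d, f (k + 1 - j) =
        ∑ k ∈ (Finset.range d).filter (fun k => j ≤ k + 1), f (k + 1 - j) := by
      rw [Finset.sum_filter]
      refine Finset.sum_congr rfl fun k _ => ?_
      split_ifs with h
      · rfl
      · have : k + 1 - j = 0 := by omega
        rw [this, hf]
        simp
    rw [h2, ← Finset.sum_image (s := (Finset.range d).filter (fun k => j ≤ k + 1))
      (g := fun k => k + 1 - j) (f := f)]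
    · refine Finset.sum_le_sum_of_subset_of_nonneg ?_ fun l _ _ => hf0 l
      intro l hl
      simp only [Finset.mem_image, Finset.mem_filter, Finset.mem_range] at hl ⊢
      obtain ⟨k, hk, rfl⟩ := hl
      omega
    · intro x hx y hy hxy
      simp only [Finset.coe_filter, Finset.mem_range, Set.mem_setOf_eq] at hx hy hxy
      omega
  calc ∑ k : Fin d, ((k : ℕ) + 1 : ℝ) * aa D k ^ 2
      ≤ ∑ k : Fin d, 5 * c ^ 2 * ∑ j ∈ Finset.range 5, f ((k : ℕ) + 1 - j) :=
        Finset.sum_le_sum fun k _ => hterm k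
    _ = 5 * c ^ 2 * ∑ j ∈ Finset.range 5, ∑ k : Fin d, f ((k : ℕ) + 1 - j) := by
        rw [← Finset.mul_sum, Finset.sum_comm]
    _ ≤ 5 * c ^ 2 * ∑ j ∈ Finset.range 5, ∑ l ∈ Finset.range (d + 1), f l :=
        mul_le_mul_of_nonneg_left (Finset.sum_le_sum hj) (by positivity)
    _ = 25 * c ^ 2 * ∑ l ∈ Finset.range (d + 1), f l := by
        rw [Finset.sum_const, Finset.card_range, nsmul_eq_mul]
        push_cast
        ring
    _ ≤ _ := mul_le_mul_of_nonneg_left hE (by positivity)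

lemma coeff_map' {d : ℕ} {β : ℝ} {T : ℝ} (D : Dat T d β) (k : ℕ) :
    (∏ i, (X - C (D.a i))).coeff k = (((minpoly ℤ β).coeff k : ℤ) : ℂ) := by
  rw [← D.pol, coeff_map]
  rfl

lemma step (NEWT : S_NEWT) {T : ℝ} {d : ℕ} {β γ : ℝ} (D : Dat T d β) (G : Dat T d γ) (k : Fin d)
    (hk : 3 ≤ (k : ℕ)) (h : ∀ j, j < k → seq d β j = seq d γ j) :
    |(seq d β k : ℝ) - seq d γ k| ≤ aa D k + aa G k := by
  set κ : ℕ := (k : ℕ) + 1 with hκ
  have hκd : κ ≤ d := k.2
  have hN := NEWT d D.a G.a κ (by omega) hκd (by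
    intro j hj1 hj2
    rw [coeff_map', coeff_map']
    have := h ⟨j - 1, by omega⟩ (by
      rw [Fin.lt_def]
      simp only
      omega)
    unfold seq at this
    simp only at this
    rw [Nat.sub_add_cancel hj1] at this
    rw [this])
  obtain ⟨hN1, hN2⟩ := hN
  rw [coeff_map', coeff_map'] at hN2
  set Δ : ℕ → ℝ := fun k => (β ^ k - (β⁻¹) ^ k) - (γ ^ k - (γ⁻¹) ^ k) with hΔ
  have hrec := recd T β γ D.one_lt D.lt G.one_lt G.lt Δ (fun k => rfl) κ (by omega)
  have hle : ∀ j, j < κ → |Δ j| ≤ vv D j + vv G j := by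
    intro j hj
    by_cases h0 : j = 0
    · subst h0
      simp [hΔ, vv]
    · have h1 := hN1 j (by omega) hj
      rw [D.psum, G.psum] at h1
      have h2 : ((Δ j : ℝ) : ℂ) = ∑ i, G.w i ^ j - ∑ i, D.w i ^ j := by
        rw [hΔ]
        push_cast at h1 ⊢
        linear_combination h1
      have h3 : |Δ j| = ‖((Δ j : ℝ) : ℂ)‖ := by rw [Complex.norm_real, Real.norm_eq_abs]
      rw [h3, h2]
      simp only [vv, h0, if_false]
      refine (norm_sub_le _ _).trans ?_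
      rw [add_comm]
  have h5 : ‖∑ i, D.a i ^ κ - ∑ i, G.a i ^ κ‖ ≤ |Δ κ| + (vv D κ + vv G κ) := by
    rw [D.psum, G.psum]
    have h2 : (∑ i, D.w i ^ κ + ((β ^ κ - (β⁻¹) ^ κ : ℝ) : ℂ)) -
        (∑ i, G.w i ^ κ + ((γ ^ κ - (γ⁻¹) ^ κ : ℝ) : ℂ)) =
        ((Δ κ : ℝ) : ℂ) + (∑ i, D.w i ^ κ - ∑ i, G.w i ^ κ) := by
      rw [hΔ]
      push_cast
      ring
    rw [h2]
    refine (norm_add_le _ _).trans ?_
    rw [Complex.norm_real, Real.norm_eq_abs]
    refine add_le_add le_rfl ?_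
    simp only [vv, show κ ≠ 0 by omega, if_false]
    exact norm_sub_le _ _
  have h6 : (κ : ℝ) * |(seq d β k : ℝ) - seq d γ k| ≤ |Δ κ| + (vv D κ + vv G κ) := by
    have h7 : ‖(((minpoly ℤ β).coeff (d - κ) : ℤ) : ℂ) - (((minpoly ℤ γ).coeff (d - κ) : ℤ) : ℂ)‖ =
        |(seq d β k : ℝ) - seq d γ k| := by
      unfold seq
      rw [← Int.cast_sub, Complex.norm_intCast, ← hκ]
      push_cast
      rfl
    rw [← h7, ← hN2]
    exact h5
  have hκ0 : (0 : ℝ) < (κ : ℝ) := by exact_mod_cast (show 0 < κ by omega)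
  have l1 := hle (κ - 1) (by omega)
  have l2 := hle (κ - 2) (by omega)
  have l3 := hle (κ - 3) (by omega)
  have l4 := hle (κ - 4) (by omega)
  have hsum : ∀ {b : ℝ} (B : Dat T d b), ∑ j ∈ Finset.range 5, vv B (κ - j) =
      vv B κ + vv B (κ - 1) + vv B (κ - 2) + vv B (κ - 3) + vv B (κ - 4) := by
    intro b B
    simp [Finset.sum_range_succ]
  have hT2 : 0 ≤ (T + 1) ^ 2 := sq_nonneg _
  have h8 : (κ : ℝ) * |(seq d β k : ℝ) - seq d γ k| ≤ (κ : ℝ) * (aa D k + aa G k) := by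
    have haa : ∀ {b : ℝ} (B : Dat T d b), (κ : ℝ) * aa B k = ((T + 1) ^ 2 + 2) *
        (vv B κ + vv B (κ - 1) + vv B (κ - 2) + vv B (κ - 3) + vv B (κ - 4)) := by
      intro b B
      unfold aa
      rw [if_neg (by omega), ← hκ, hsum]
      have : ((k : ℕ) + 1 : ℝ) = (κ : ℝ) := by rw [hκ]; push_cast; ring
      rw [this]
      field_simp
    rw [mul_add, haa, haa]
    refine h6.trans ?_
    have p0 := vv_nonneg D κ
    have p1 := vv_nonneg D (κ - 1)
    have p2 := vv_nonneg D (κ - 2)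
    have p3 := vv_nonneg D (κ - 3)
    have p4 := vv_nonneg D (κ - 4)
    have q0 := vv_nonneg G κ
    have q1 := vv_nonneg G (κ - 1)
    have q2 := vv_nonneg G (κ - 2)
    have q3 := vv_nonneg G (κ - 3)
    have q4 := vv_nonneg G (κ - 4)
    have m1 : (T + 1) ^ 2 * (|Δ (κ - 1)| + |Δ (κ - 2)| + |Δ (κ - 3)| + |Δ (κ - 4)|) ≤
        (T + 1) ^ 2 * ((vv D (κ - 1) + vv G (κ - 1)) + (vv D (κ - 2) + vv G (κ - 2)) +
          (vv D (κ - 3) + vv G (κ - 3)) + (vv D (κ - 4) + vv G (κ - 4))) :=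
      mul_le_mul_of_nonneg_left (by linarith) hT2
    have m2 : 0 ≤ (T + 1) ^ 2 * (vv D κ + vv G κ) := by positivity
    nlinarith [m1, m2]
  exact le_of_mul_le_mul_left h8 hκ0

lemma seq_bound {T : ℝ} (hT : 1 < T) {d : ℕ} (hd : 2 ≤ d) {β : ℝ} (hβ : IsPerron β)
    (D : Dat T d β) (k : Fin d) (hk : (k : ℕ) < 3) : |(seq d β k : ℝ)| ≤ T ^ 3 * (d : ℝ) ^ 3 := by
  have hmon : (minpoly ℤ β).Monic := minpoly.monic hβ.2.1
  have h1 : ∀ z ∈ ((minpoly ℤ β).map (Int.castRingHom ℂ)).roots, ‖z‖ ≤ T := by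
    intro z hz
    have hroots : ((minpoly ℤ β).map (Int.castRingHom ℂ)).roots = Finset.univ.val.map D.a := by
      rw [D.pol]
      have : (∏ j, (X - C (D.a j))) = ((Finset.univ.val.map D.a).map fun a => X - C a).prod := by
        rw [Multiset.map_map]; rfl
      rw [this, roots_multiset_prod_X_sub_C]
    rw [hroots, Multiset.mem_map] at hz
    obtain ⟨i, _, rfl⟩ := hz
    exact D.bd i
  have h2 := coeff_le_of_roots_le (p := minpoly ℤ β) (f := Int.castRingHom ℂ) (B := T)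
    (d - ((k : ℕ) + 1)) hmon (IsAlgClosed.splits _) h1
  rw [coeff_map, D.deg] at h2
  have h3 : ‖(Int.castRingHom ℂ) ((minpoly ℤ β).coeff (d - ((k : ℕ) + 1)))‖ =
      |(seq d β k : ℝ)| := by
    unfold seq
    rw [eq_intCast, Complex.norm_intCast]
  rw [h3] at h2
  refine h2.trans ?_
  have hk' : (k : ℕ) + 1 ≤ d := k.2
  have h4 : d - (d - ((k : ℕ) + 1)) = (k : ℕ) + 1 := by omega
  rw [h4, Nat.choose_symm hk']
  refine mul_le_mul (pow_le_pow_right₀ hT.le (by omega)) ?_ (by positivity) (by positivity)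
  have h5 : d.choose ((k : ℕ) + 1) ≤ d ^ ((k : ℕ) + 1) := Nat.choose_le_pow _ _
  have h6 : d ^ ((k : ℕ) + 1) ≤ d ^ 3 := Nat.pow_le_pow_right (by omega) (by omega)
  exact_mod_cast h5.trans h6

lemma seq_inj {T : ℝ} {d : ℕ} {β γ : ℝ} (hβ : IsPerron β) (hγ : IsPerron γ)
    (D : Dat T d β) (G : Dat T d γ) (h : ∀ k, seq d β k = seq d γ k) : β = γ := by
  have hpol : minpoly ℤ β = minpoly ℤ γ := by
    ext n
    rcases lt_trichotomy n d with hn | hn | hn
    · have := h ⟨d - 1 - n, by omega⟩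
      unfold seq at this
      simp only at this
      have h1 : d - (d - 1 - n + 1) = n := by omega
      rwa [h1] at this
    · have h1 : (minpoly ℤ β).coeff n = 1 := by
        rw [hn]
        conv_lhs => rw [← D.deg]
        exact minpoly.monic hβ.2.1
      have h2 : (minpoly ℤ γ).coeff n = 1 := by
        rw [hn]
        conv_lhs => rw [← G.deg]
        exact minpoly.monic hγ.2.1
      rw [h1, h2]
    · rw [coeff_eq_zero_of_natDegree_lt (by rw [D.deg]; exact hn),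
        coeff_eq_zero_of_natDegree_lt (by rw [G.deg]; exact hn)]
  by_contra hne
  have hβr : aeval (β : ℂ) (minpoly ℤ γ) = 0 := by
    rw [← hpol]
    have : aeval ((algebraMap ℝ ℂ) β) (minpoly ℤ β) = 0 := by
      rw [aeval_algebraMap_apply, minpoly.aeval, map_zero]
    exact this
  have hγr : aeval (γ : ℂ) (minpoly ℤ β) = 0 := by
    rw [hpol]
    have : aeval ((algebraMap ℝ ℂ) γ) (minpoly ℤ γ) = 0 := by
      rw [aeval_algebraMap_apply, minpoly.aeval, map_zero]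
    exact this
  have h1 := hγ.2.2 _ hβr (by exact_mod_cast hne)
  have h2 := hβ.2.2 _ hγr (by exact_mod_cast (Ne.symm hne))
  rw [Complex.norm_real, Real.norm_of_nonneg (by linarith [D.one_lt])] at h1
  rw [Complex.norm_real, Real.norm_of_nonneg (by linarith [G.one_lt])] at h2
  linarith

end Pool.Agent.Helper69K9.SN
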