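import Mathlib
import Pool.Agent.Helper69K9.SN.Asm

/-!
# The counting theorem
-/

set_option autoImplicit false

open Polynomial

namespace Pool.Agent.Helper69K9.SN

open Pool.Agent.R329.Par

/-- the numbers counted -/
def PP (T : ℝ) (d : ℕ) : Set ℝ :=
  {β : ℝ | IsPerron β ∧ β < T ∧ (minpoly ℤ β).natDegree = d ∧ ¬ (parryPowers β).Finite}

/-- a class with the same first three coefficients -/
theorem fiber (EN : S_EN) (PC : S_PC) (NEWT : S_NEWT) {T : ℝ} (hT : 1 < T) {d : ℕ} (hd : 2 ≤ d)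
    (F : Finset ℝ) (hF : ∀ β ∈ F, β ∈ PP T d)
    (hsame : ∀ β ∈ F, ∀ γ ∈ F, ∀ k : Fin d, (k : ℕ) < 3 → seq d β k = seq d γ k) :
    (F.card : ℝ) ≤ Real.exp (8 * Real.sqrt (25 * ((T + 1) ^ 2 + 2) ^ 2 *
      (4 * (d * Real.log d + (Real.log (T ^ 2) + 1) * d)))) := by
  classical
  have hdat : ∀ y : F, Nonempty (Dat T d (y : ℝ)) := fun y =>
    exists_dat EN hT hd (hF y y.2).1 (hF y y.2).2.1 (hF y y.2).2.2.1 (hF y y.2).2.2.2
  let D : ∀ y : F, Dat T d (y : ℝ) := fun y => Classical.choice (hdat y)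
  have := PC d F (fun y k => seq d (y : ℝ) k) (fun y k => aa (D y) k) _
    ?_ (fun y k => aa_nonneg _ k) ?_ (fun y => sum_aa (D y))
  · rwa [Fintype.card_coe] at this
  · intro y z hyz
    apply Subtype.ext
    exact seq_inj (hF y y.2).1 (hF z z.2).1 (D y) (D z) fun k => congrFun hyz k
  · intro y z k h
    by_cases hk : (k : ℕ) < 3
    · have h1 : seq d (y : ℝ) k = seq d (z : ℝ) k := hsame y y.2 z z.2 k hk
      simp only [h1, sub_self, abs_zero]
      exact add_nonneg (aa_nonneg _ _) (aa_nonneg _ _)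
    · exact step NEWT _ _ k (by omega) h

theorem finset_bound (EN : S_EN) (PC : S_PC) (NEWT : S_NEWT) {T : ℝ} (hT : 1 < T) {d : ℕ}
    (hd : 2 ≤ d) (F : Finset ℝ) (hF : ∀ β ∈ F, β ∈ PP T d) :
    (F.card : ℝ) ≤ Real.exp (8 * Real.sqrt (25 * ((T + 1) ^ 2 + 2) ^ 2 *
      (4 * (d * Real.log d + (Real.log (T ^ 2) + 1) * d)))) * (3 * T ^ 3 * (d : ℝ) ^ 3) ^ 3 := by
  classical
  set E : ℝ := Real.exp (8 * Real.sqrt (25 * ((T + 1) ^ 2 + 2) ^ 2 *
      (4 * (d * Real.log d + (Real.log (T ^ 2) + 1) * d)))) with hE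
  set B : ℤ := ⌊T ^ 3 * (d : ℝ) ^ 3⌋ with hB
  have hB0 : 0 ≤ B := Int.floor_nonneg.2 (by positivity)
  set t : Finset (Fin 3 → ℤ) := Fintype.piFinset fun _ => Finset.Icc (-B) B with ht
  set g : ℝ → Fin 3 → ℤ := fun β j => if h : (j : ℕ) < d then seq d β ⟨j, h⟩ else 0 with hg
  have hdat : ∀ β ∈ F, Nonempty (Dat T d β) := fun y hy =>
    exists_dat EN hT hd (hF y hy).1 (hF y hy).2.1 (hF y hy).2.2.1 (hF y hy).2.2.2
  have hmaps : ∀ β ∈ F, g β ∈ t := by
    intro β hβ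
    rw [ht, Fintype.mem_piFinset]
    intro j
    rw [Finset.mem_Icc, hg]
    simp only
    split_ifs with h
    · obtain ⟨D⟩ := hdat β hβ
      have h1 := seq_bound hT hd (hF β hβ).1 D ⟨j, h⟩ j.2
      have h2 := abs_le.1 h1
      constructor
      · have h3 : -(seq d β ⟨j, h⟩) ≤ B := by
          rw [hB, Int.le_floor]
          push_cast
          linarith [h2.1]
        linarith
      · rw [hB, Int.le_floor]
        exact h2.2
    · constructor <;> linarith
  have hfib : ∀ c ∈ t, (F.filter fun β => g β = c).card ≤ ⌊E⌋₊ := by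
    intro c _
    apply Nat.le_floor
    apply fiber EN PC NEWT hT hd
    · intro β hβ
      exact hF β (Finset.mem_filter.1 hβ).1
    · intro β hβ γ hγ k hk
      have h1 := (Finset.mem_filter.1 hβ).2
      have h2 := (Finset.mem_filter.1 hγ).2
      have h3 := congrFun (h1.trans h2.symm) ⟨k, hk⟩
      rw [hg] at h3
      simp only [k.2, dif_pos] at h3
      exact h3
  have h4 := Finset.card_le_mul_card_image_of_maps_to hmaps ⌊E⌋₊ hfib
  have ht4 : (t.card : ℝ) ≤ (3 * T ^ 3 * (d : ℝ) ^ 3) ^ 3 := by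
    have h5 : t.card = (2 * B + 1).toNat ^ 3 := by
      rw [ht, Fintype.card_piFinset]
      simp only [Int.card_Icc, Finset.prod_const, Finset.card_univ, Fintype.card_fin]
      congr 2
      ring
    rw [h5]
    push_cast
    refine pow_le_pow_left₀ (by positivity) ?_ 3
    have h6 : (((2 * B + 1).toNat : ℕ) : ℝ) = 2 * (B : ℝ) + 1 := by
      have : (((2 * B + 1).toNat : ℕ) : ℤ) = 2 * B + 1 := Int.toNat_of_nonneg (by linarith)
      have h7 : ((((2 * B + 1).toNat : ℕ) : ℤ) : ℝ) = ((2 * B + 1 : ℤ) : ℝ) := by rw [this]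
      rw [Int.cast_natCast] at h7
      rw [h7]
      push_cast
      ring
    rw [h6]
    have h8 : (B : ℝ) ≤ T ^ 3 * (d : ℝ) ^ 3 := Int.floor_le _
    have h9 : 1 ≤ T ^ 3 * (d : ℝ) ^ 3 := by
      have a1 : 1 ≤ T ^ 3 := one_le_pow₀ hT.le
      have a2 : (1 : ℝ) ≤ (d : ℝ) ^ 3 := one_le_pow₀ (by exact_mod_cast (show 1 ≤ d by omega))
      nlinarith
    nlinarith
  calc (F.card : ℝ) ≤ ((⌊E⌋₊ * t.card : ℕ) : ℝ) := by exact_mod_cast h4
    _ = (⌊E⌋₊ : ℝ) * (t.card : ℝ) := by push_cast; ring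
    _ ≤ E * (3 * T ^ 3 * (d : ℝ) ^ 3) ^ 3 :=
      mul_le_mul (Nat.floor_le (Real.exp_pos _).le) ht4 (by positivity) (Real.exp_pos _).le

/-- the constant -/
noncomputable def KK (T : ℝ) : ℝ :=
  8 * Real.sqrt (25 * ((T + 1) ^ 2 + 2) ^ 2 * (4 * (1 + (Real.log (T ^ 2) + 1) * 2))) +
    (3 * Real.log (3 * T ^ 3) + 9)

theorem main' (EN : S_EN) (PC : S_PC) (NEWT : S_NEWT) (T : ℝ) (hT : 1 < T) (d : ℕ) (hd : 2 ≤ d) :
    (PP T d).Finite ∧ ((PP T d).ncard : ℝ) ≤ Real.exp (KK T * Real.sqrt (d * Real.log d)) := by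
  classical
  set c : ℝ := (T + 1) ^ 2 + 2 with hc
  set C : ℝ := 25 * c ^ 2 * (4 * (1 + (Real.log (T ^ 2) + 1) * 2)) with hC
  have hlogT : 0 ≤ Real.log (T ^ 2) := Real.log_nonneg (by nlinarith)
  have hC0 : 0 ≤ C := by positivity
  have hlog3 : 0 ≤ Real.log (3 * T ^ 3) :=
    Real.log_nonneg (by nlinarith [one_le_pow₀ (n := 3) hT.le])
  have hd2 : (2 : ℝ) ≤ (d : ℝ) := by exact_mod_cast hd
  have hlogd : (1 : ℝ) / 2 ≤ Real.log d := by
    have h1 : Real.log 2 ≤ Real.log d := Real.log_le_log (by norm_num) hd2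
    have h2 := Real.log_two_gt_d9
    linarith
  have hL1 : 1 ≤ (d : ℝ) * Real.log d := by nlinarith
  set L : ℝ := (d : ℝ) * Real.log d with hL
  have hsq1 : 1 ≤ Real.sqrt L := Real.one_le_sqrt.2 hL1
  have hlogd_le : Real.log d ≤ Real.sqrt L := by
    apply Real.le_sqrt_of_sq_le
    rw [sq, hL]
    exact mul_le_mul_of_nonneg_right (by
      have := Real.log_le_sub_one_of_pos (show (0 : ℝ) < d by linarith)
      linarith) (by linarith)
  have hbound : ∀ F : Finset ℝ, (∀ β ∈ F, β ∈ PP T d) → (F.card : ℝ) ≤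
      Real.exp ((8 * Real.sqrt C + (3 * Real.log (3 * T ^ 3) + 9)) * Real.sqrt L) := by
    intro F hF
    refine (finset_bound EN PC NEWT hT hd F hF).trans ?_
    have h1 : Real.sqrt (25 * c ^ 2 * (4 * (L + (Real.log (T ^ 2) + 1) * d))) ≤
        Real.sqrt C * Real.sqrt L := by
      rw [← Real.sqrt_mul hC0]
      apply Real.sqrt_le_sqrt
      have h2 : (d : ℝ) ≤ 2 * L := by rw [hL]; nlinarith
      have h3 : L + (Real.log (T ^ 2) + 1) * d ≤ (1 + (Real.log (T ^ 2) + 1) * 2) * L := by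
        nlinarith
      calc 25 * c ^ 2 * (4 * (L + (Real.log (T ^ 2) + 1) * d))
          ≤ 25 * c ^ 2 * (4 * ((1 + (Real.log (T ^ 2) + 1) * 2) * L)) :=
            mul_le_mul_of_nonneg_left (by linarith) (by positivity)
        _ = C * L := by rw [hC]; ring
    have h2 : (3 * T ^ 3 * (d : ℝ) ^ 3) ^ 3 = Real.exp (3 * (Real.log (3 * T ^ 3) + 3 * Real.log d)) := by
      have h3 : Real.log (3 * T ^ 3 * (d : ℝ) ^ 3) = Real.log (3 * T ^ 3) + 3 * Real.log d := by
        rw [Real.log_mul (by positivity) (by positivity), Real.log_pow]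
        norm_num
      have h4 := Real.exp_nat_mul (Real.log (3 * T ^ 3 * (d : ℝ) ^ 3)) 3
      rw [Real.exp_log (by positivity)] at h4
      rw [← h3, ← h4]
      norm_num
    rw [h2, ← Real.exp_add]
    apply Real.exp_le_exp.2
    have h4 : Real.log (3 * T ^ 3) ≤ Real.log (3 * T ^ 3) * Real.sqrt L := by nlinarith
    nlinarith [h1, h4, hlogd_le]
  have hfin : (PP T d).Finite := by
    by_contra hinf
    obtain ⟨n, hn⟩ := exists_nat_gt
      (Real.exp ((8 * Real.sqrt C + (3 * Real.log (3 * T ^ 3) + 9)) * Real.sqrt L))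
    obtain ⟨F, hF, hcard⟩ := Set.Infinite.exists_subset_card_eq hinf n
    have := hbound F fun β hβ => hF hβ
    rw [hcard] at this
    linarith
  refine ⟨hfin, ?_⟩
  have h1 := hbound hfin.toFinset fun β hβ => hfin.mem_toFinset.1 hβ
  have h2 : (PP T d).ncard = hfin.toFinset.card := Set.ncard_eq_toFinset_card _ hfin
  rw [← h2] at h1
  exact h1

theorem main (EN : S_EN) (PC : S_PC) (NEWT : S_NEWT) : S_MAIN :=
  fun T hT => ⟨KK T, fun d hd => main' EN PC NEWT T hT d hd⟩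

/-- the constant below `118 / 100` -/
theorem KK_le {T : ℝ} (hT : 1 < T) (h : T ≤ 118 / 100) : KK T ≤ 1100 := by
  have hlog : Real.log T ≤ 1 / 6 := by
    have h1 := Real.quadratic_le_exp_of_nonneg (x := 1 / 6) (by norm_num)
    have h2 : T ≤ Real.exp (1 / 6) := by
      norm_num at h1
      linarith
    exact (Real.log_le_iff_le_exp (by linarith)).2 h2
  have hlog0 : 0 ≤ Real.log T := Real.log_nonneg hT.le
  have h1 : Real.log (T ^ 2) = 2 * Real.log T := by
    rw [Real.log_pow]; norm_num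
  have h2 : Real.log (3 * T ^ 3) ≤ 2 := by
    have h3 : 3 * T ^ 3 ≤ Real.exp 2 := by
      have h4 : T ^ 3 ≤ (118 / 100) ^ 3 := pow_le_pow_left₀ (by linarith) h 3
      have h5 : Real.exp 2 = Real.exp 1 * Real.exp 1 := by
        rw [← Real.exp_add]; norm_num
      have h6 := Real.exp_one_gt_d9
      have h7 : 2.7 * 2.7 ≤ Real.exp 1 * Real.exp 1 :=
        mul_le_mul (by linarith) (by linarith) (by norm_num) (by positivity)
      rw [h5]
      norm_num at h4
      linarith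
    exact (Real.log_le_iff_le_exp (by positivity)).2 h3
  have h3 : (T + 1) ^ 2 + 2 ≤ 6.7524 := by nlinarith
  have h4 : 25 * ((T + 1) ^ 2 + 2) ^ 2 * (4 * (1 + (Real.log (T ^ 2) + 1) * 2)) ≤ 135 ^ 2 := by
    have h5 : ((T + 1) ^ 2 + 2) ^ 2 ≤ 6.7524 ^ 2 := pow_le_pow_left₀ (by positivity) h3 2
    have h6 : 4 * (1 + (Real.log (T ^ 2) + 1) * 2) ≤ 44 / 3 := by
      rw [h1]; linarith
    calc 25 * ((T + 1) ^ 2 + 2) ^ 2 * (4 * (1 + (Real.log (T ^ 2) + 1) * 2))
        ≤ 25 * 6.7524 ^ 2 * (44 / 3) := by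
          refine mul_le_mul (by linarith) h6 ?_ (by positivity)
          rw [h1]; positivity
      _ ≤ 135 ^ 2 := by norm_num
  have h5 : Real.sqrt (25 * ((T + 1) ^ 2 + 2) ^ 2 * (4 * (1 + (Real.log (T ^ 2) + 1) * 2))) ≤
      135 := by
    rw [Real.sqrt_le_left (by norm_num)]
    exact h4
  unfold KK
  linarith

end Pool.Agent.Helper69K9.SN
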